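import Mathlib

/-!
# Project WZ: Fontaine-Mazur in rank two for most quadruples of tame primes (MP_f68ac8_nt, very famous)

The criterion of the starting file `MP_f68ac8_nt.RankTwoWeightZero` needs: systems of `2 × 2` matrices `T_i`, `T_i ^ 2 = 0`,
`[∑_j A_ij T_j, T_i] = u_i T_i` (or `= 0`), have a common kernel, and there is no pair of characters. We prove this under explicit
generic conditions on the linking numbers `A_ij` and the levels `u_i` and count the solutions of the conditions.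
All statements are over an arbitrary field `K`; `τ_ijk = trace ([T_i, T_j] T_k)` is totally antisymmetric, `t_ij = trace (T_i T_j)`.
-/

set_option autoImplicit false

open Matrix

namespace Pool.Agent.V5helper57.WZ

/-- **KER** (40 lines). Nilpotent `2 × 2` matrices with `trace (T_i T_j) = 0` for all `i, j` kill a common vector. If all `T_i = 0` take
any `w ≠ 0`. If `T_k ≠ 0`, write `T_k = [[a, b], [c, -a]]`, `a ^ 2 + b c = 0` (the trace of a nilpotent matrix over a field is zero: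
`Matrix.isNilpotent_trace_of_isNilpotent`), let `w ≠ 0` be a nonzero column of `T_k` (`w = (a, c)` or `(b, -a)`); `T_k w = 0`. For
`T = [[d, e], [f, -d]]`, `d ^ 2 + e f = 0`, `2 a d + b f + c e = 0` one gets `T w = 0` (e.g. if `b ≠ 0`, `c = -a²/b`,
`b ^ 2 f + 2 a b d - a ^ 2 e = 0`, times `e`: `-(b d - a e) ^ 2 = 0`, ...). Perhaps easier: a library lemma of this kind is
`Pool.Agent.Q202.QT` `nil_kernel` (used in `Pool.Agent.Q202.QT.nti_of_traces`); importing it is allowed. -/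
def S_KER : Prop := ∀ (K : Type) [Field K], (2 : K) ≠ 0 → ∀ (n : ℕ) (T : Fin n → Matrix (Fin 2) (Fin 2) K),
  (∀ i, T i * T i = 0) → (∀ i j, (T i * T j).trace = 0) → ∃ w : Fin 2 → K, w ≠ 0 ∧ ∀ i, T i *ᵥ w = 0

/-- **ALT** (100 lines). Three matrices. Multiply the relation for `i` by `T_k` and take the trace: `u_i t_ik = ∑_j A_ij τ_jik`
(`trace ((M T_i - T_i M) T_k)`, terms `j = i`, `j = k` vanish since `T_k ^ 2 = 0`, `T_i ^ 2 = 0`). With `τ = τ_012`: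
`u0 t01 = A02 τ`, `u1 t01 = -A12 τ`, `u0 t02 = -A01 τ`, `u2 t02 = A21 τ`, `u1 t12 = A10 τ`, `u2 t12 = -A20 τ`. So
`(u1 A02 + u0 A12) τ = 0`, `(u2 A01 + u0 A21) τ = 0`, `(u2 A10 + u1 A20) τ = 0`, so `τ = 0` and then all `t_ij = 0`. In Lean: perhaps
write `T_i = [[a_i, b_i], [c_i, -a_i]]`, `a_i ^ 2 + b_i c_i = 0`, take the four entries of the relations as hypotheses, and use
`linear_combination`; or prove the trace identities abstractly with `Matrix.trace_mul_comm`. -/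
def S_ALT : Prop := ∀ (K : Type) [Field K], (2 : K) ≠ 0 → ∀ (u : Fin 3 → K) (A : Fin 3 → Fin 3 → K), u 0 ≠ 0 → u 1 ≠ 0 →
  (u 1 * A 0 2 + u 0 * A 1 2 ≠ 0 ∨ u 2 * A 0 1 + u 0 * A 2 1 ≠ 0 ∨ u 2 * A 1 0 + u 1 * A 2 0 ≠ 0) →
  ∀ T : Fin 3 → Matrix (Fin 2) (Fin 2) K, (∀ i, T i * T i = 0) →
  (∀ i, (∑ j, A i j • T j) * T i - T i * (∑ j, A i j • T j) = u i • T i) → ∀ i j, (T i * T j).trace = 0

/-- **TRR** (80 lines). The trace identities for four matrices: with `τ_jik = trace (T_j * T_i * T_k) - trace (T_i * T_j * T_k)`,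
the relation for `i`, multiplied by `T_k`, gives `u_i t_ik = ∑_j A_ij τ_jik`. Here for all `i ≠ k`; with
`a = τ_123`, `b = τ_023`, `c = τ_013`, `d = τ_012` (`τ` is antisymmetric in all three indices: `trace (X Y Z) = trace (Y Z X)`) the twelve
identities below. -/
def S_TRR : Prop := ∀ (K : Type) [Field K] (u : Fin 4 → K) (A : Fin 4 → Fin 4 → K) (T : Fin 4 → Matrix (Fin 2) (Fin 2) K),
  (∀ i, T i * T i = 0) → (∀ i, (∑ j, A i j • T j) * T i - T i * (∑ j, A i j • T j) = u i • T i) →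
  ∃ a b c d : K, a = (T 1 * T 2 * T 3).trace - (T 2 * T 1 * T 3).trace ∧
    b = (T 0 * T 2 * T 3).trace - (T 2 * T 0 * T 3).trace ∧ c = (T 0 * T 1 * T 3).trace - (T 1 * T 0 * T 3).trace ∧
    d = (T 0 * T 1 * T 2).trace - (T 1 * T 0 * T 2).trace ∧
    A 0 2 * d + A 0 3 * c = u 0 * (T 0 * T 1).trace ∧ -(A 1 2 * d + A 1 3 * c) = u 1 * (T 0 * T 1).trace ∧
    -(A 0 1 * d) + A 0 3 * b = u 0 * (T 0 * T 2).trace ∧ A 2 1 * d - A 2 3 * b = u 2 * (T 0 * T 2).trace ∧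
    -(A 0 1 * c) - A 0 2 * b = u 0 * (T 0 * T 3).trace ∧ A 3 1 * c + A 3 2 * b = u 3 * (T 0 * T 3).trace ∧
    A 1 0 * d + A 1 3 * a = u 1 * (T 1 * T 2).trace ∧ -(A 2 0 * d) - A 2 3 * a = u 2 * (T 1 * T 2).trace ∧
    A 1 0 * c - A 1 2 * a = u 1 * (T 1 * T 3).trace ∧ -(A 3 0 * c) + A 3 2 * a = u 3 * (T 1 * T 3).trace ∧
    A 2 0 * b + A 2 1 * a = u 2 * (T 2 * T 3).trace ∧ -(A 3 0 * b) - A 3 1 * a = u 3 * (T 2 * T 3).trace

/-- **ALF** (80 lines, takes `S_TRR`). Four matrices, all `u_i ≠ 0`, `b_ij = A_ij / u_i`. By TRR, dividing by `u_i`: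
`(b02 + b12) d + (b03 + b13) c = 0`, `(b01 + b21) d = (b03 + b23) b`, `(b01 + b31) c + (b02 + b32) b = 0`; the determinant of this
system for `(d, c, b)` is `(b02 + b12)(b03 + b23)(b01 + b31) - (b03 + b13)(b01 + b21)(b02 + b32) ≠ 0`, so `b = c = d = 0`, and
then `(b13 + b23) a = 0` (from the identities for `t12`), so `a = 0`, and all `t_ij = 0` (`t_ii = 0` since `T_i ^ 2 = 0`). -/
def S_ALF : Prop := S_TRR → ∀ (K : Type) [Field K] (u : Fin 4 → K) (A b : Fin 4 → Fin 4 → K), (∀ i, u i ≠ 0) →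
  (∀ i j, b i j = A i j / u i) →
  (b 0 2 + b 1 2) * (b 0 3 + b 2 3) * (b 0 1 + b 3 1) ≠ (b 0 3 + b 1 3) * (b 0 1 + b 2 1) * (b 0 2 + b 3 2) →
  b 1 3 + b 2 3 ≠ 0 → ∀ T : Fin 4 → Matrix (Fin 2) (Fin 2) K, (∀ i, T i * T i = 0) →
  (∀ i, (∑ j, A i j • T j) * T i - T i * (∑ j, A i j • T j) = u i • T i) → ∀ i j, (T i * T j).trace = 0

/-- no pair of characters -/
def NoPair4 {K : Type} [Field K] (A : Fin 4 → Fin 4 → K) : Prop :=
  ∀ x y : Fin 4 → K, (∀ i, x i * y i = 0) → (∀ i, x i * ∑ j, A i j * y j = 0) → (∀ i, y i * ∑ j, A i j * x j = 0) →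
    (∀ i, x i = 0) ∨ (∀ i, y i = 0)

/-- **ALZ** (150 lines, takes `S_TRR`). Four matrices, `u = 0`. By TRR with `u = 0`: `A02 d + A03 c = 0 = A12 d + A13 c`, so `c = d = 0`
as the determinant is nonzero; then `A03 b = 0 = A02 b`, so `b = 0` (`A02`, `A03` are not both zero), `A13 a = 0 = A12 a`, so
`a = 0`. So `trace ([T_i, T_j] T_k) = 0` for all `i, j, k`. Suppose `t_ij ≠ 0` for some `i ≠ j`; put `N = T_i`, `N' = T_j`. Every `T_k` has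
trace zero, `trace ([N, N'] T_k) = 0`, so it is `x_k N + y_k N'` with `x_k = trace (T_k N') / t_ij`, `y_k = trace (T_k N) / t_ij` (`N`, `N'`,
`[N, N']` is a basis of the trace zero matrices, orthogonal complement), and `T_k ^ 2 = x_k y_k (N N' + N' N) = x_k y_k t_ij`
(a scalar matrix), so `x_k y_k = 0`. The relation for `k` is `((∑ A_kj x_j) y_k - (∑ A_kj y_j) x_k) [N, N'] = 0`, `[N, N'] ≠ 0`. Multiply by
`x_k` or `y_k` and use `x_k y_k = 0`: `x_k ∑ A_kj y_j = 0 = y_k ∑ A_kj x_j`. By `NoPair4` `x = 0` or `y = 0`, but `x_i = 1 = y_j`. -/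
def S_ALZ : Prop := S_TRR → ∀ (K : Type) [Field K], (2 : K) ≠ 0 → ∀ A : Fin 4 → Fin 4 → K,
  A 0 2 * A 1 3 ≠ A 0 3 * A 1 2 → NoPair4 A → ∀ T : Fin 4 → Matrix (Fin 2) (Fin 2) K, (∀ i, T i * T i = 0) →
  (∀ i, (∑ j, A i j • T j) * T i - T i * (∑ j, A i j • T j) = 0) → ∀ i j, (T i * T j).trace = 0

/-- **NPQ** (100 lines). No pair: `x`, `y` have disjoint supports `X`, `Y`; suppose both are nonempty. If `X = {l}`: `A_kl = 0` for all
`k ∈ Y` and `∑_{k ∈ Y} A_lk y_k = 0`: `Y = {k}` gives `A_lk = A_kl = 0`, impossible since `A_lk ≠ 0` for all `l < k`; if `Y` has two or three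
elements: `l = 0`: `Y` contains `1` or `3`; `l = 1`: `Y` contains `0` or `3`; `l = 2`: `0` or `1`; `l = 3`: all `A_k3 ≠ 0`. Same with `x`, `y`
exchanged. If both have two elements, one of the three conditions on minors is violated (`{0, 1 | 2, 3}`: rows `0, 1`,
columns `2, 3`, `{0, 2 | 1, 3}`: rows `0, 2`, columns `1, 3`, `{0, 3 | 1, 2}`: rows `0, 3`, columns `1, 2`). 81 cases `x_i = 0 ≠ y_i` etc. -/
def S_NPQ : Prop := ∀ (K : Type) [Field K] (A : Fin 4 → Fin 4 → K), A 0 1 ≠ 0 → A 1 0 ≠ 0 → A 0 2 ≠ 0 → A 1 2 ≠ 0 →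
  A 0 3 ≠ 0 → A 1 3 ≠ 0 → A 2 3 ≠ 0 → A 3 0 ≠ 0 → A 3 1 ≠ 0 → A 0 2 * A 1 3 ≠ A 0 3 * A 1 2 →
  A 0 1 * A 2 3 ≠ A 0 3 * A 2 1 → A 0 1 * A 3 2 ≠ A 0 2 * A 3 1 → NoPair4 A

open Classical in
/-- **CQ3** (150 lines). Counting, `w = (*, A03, A13, A23)`, `s = (u3, A30, A31, A32)`. Choose `s 0 ≠ 0`, `w 0` arbitrary, `w 1 ≠ 0`; `w 2` not in
`{0, w 1 * A12 / A02, -(w 1) * u1 / u0}`; `w 3` not in `{0, w 1 * A21 / A01, -(w 2) * u2 / u1}`; `s 1 ≠ 0`; `s 2 ≠ 0`; `s 3` not equal to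
`A02 * s 2 / A01` and not to the one solution of the equation in the last but one line, which is linear in `s 3 / s 0` with the
coefficient `(w 1 / u0 + w 2 / u1) * (A01 / u0 + A21 / u2) ≠ 0`. (All lower bounds; a nested product of counts, e.g. by
`Finset.card_sigma` or an injection as in `Pool.Agent.V5helper74.OT.CNT`.) -/
def S_CQ3 : Prop := ∀ (p : ℕ) [Fact p.Prime], 5 ≤ p → ∀ u0 u1 u2 A01 A02 A12 A21 : ZMod p,
  u0 ≠ 0 → u1 ≠ 0 → u2 ≠ 0 → A01 ≠ 0 → A02 ≠ 0 → A12 ≠ 0 → A01 / u0 + A21 / u2 ≠ 0 →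
  (p - 1) * (p * ((p - 1) * ((p - 3) * ((p - 3) * ((p - 1) * ((p - 1) * (p - 2))))))) ≤
    ((Finset.univ : Finset ((Fin 4 → ZMod p) × (Fin 4 → ZMod p))).filter fun z =>
      z.2 0 ≠ 0 ∧ z.1 1 ≠ 0 ∧ z.1 2 ≠ 0 ∧ z.1 3 ≠ 0 ∧ z.2 1 ≠ 0 ∧ z.2 2 ≠ 0 ∧
      A02 * z.1 2 ≠ z.1 1 * A12 ∧ A01 * z.1 3 ≠ z.1 1 * A21 ∧ A01 * z.2 3 ≠ A02 * z.2 2 ∧
      (A02 / u0 + A12 / u1) * (z.1 1 / u0 + z.1 3 / u2) * (A01 / u0 + z.2 2 / z.2 0) ≠
        (z.1 1 / u0 + z.1 2 / u1) * (A01 / u0 + A21 / u2) * (A02 / u0 + z.2 3 / z.2 0) ∧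
      z.1 2 / u1 + z.1 3 / u2 ≠ 0).card

open Classical in
/-- **CQ2** (80 lines). Counting, `w = (*, A02, A12)`, `s = (u2, A20, A21)`: `w 0`, `s 1` arbitrary, `s 0`, `w 1`, `w 2 ≠ 0`,
`s 2 ≠ -(A01 / u0) * s 0`. Also (second part) `w = (*, A01)`, `s = (u1, A10)`. -/
def S_CQ2 : Prop := (∀ (p : ℕ) [Fact p.Prime] (β : ZMod p), p ^ 2 * (p - 1) ^ 4 ≤
    ((Finset.univ : Finset ((Fin 3 → ZMod p) × (Fin 3 → ZMod p))).filter fun z =>
      z.2 0 ≠ 0 ∧ z.1 1 ≠ 0 ∧ z.1 2 ≠ 0 ∧ β + z.2 2 / z.2 0 ≠ 0).card) ∧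
  ∀ (p : ℕ) [Fact p.Prime], p * (p - 1) ^ 3 ≤
    ((Finset.univ : Finset ((Fin 2 → ZMod p) × (Fin 2 → ZMod p))).filter fun z =>
      z.2 0 ≠ 0 ∧ z.1 1 ≠ 0 ∧ z.2 1 ≠ 0).card

open Classical in
/-- **CTR** (100 lines). Counting for triples (for another theorem: the Galois group is finite). `w = (*, λ_ac, λ_bc)`,
`s = (u_c, λ_ca, λ_cb)`. The number of all `(w, s)` with `s 0 ≠ 0` and `l * (w 2) * (s 1) ≠ (w 1) * (s 2) * m` (`l ≠ 0`) is at least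
`p ^ 3 (p - 1) ^ 3` (`w 0`, `w 1`, `s 2` arbitrary, `s 0 ≠ 0`, `s 1 ≠ 0`, `w 2` different from one value), and at most `p ^ 3` of them satisfy all
three equations (`w 2`, `s 2`, `s 1` are determined by `w 1`, `s 0`). -/
def S_CTR : Prop := ∀ (p : ℕ) [Fact p.Prime] (l m ua ub : ZMod p), l ≠ 0 → ua ≠ 0 → ub ≠ 0 →
  p ^ 3 * (p - 1) ^ 3 ≤ p ^ 3 +
    ((Finset.univ : Finset ((Fin 3 → ZMod p) × (Fin 3 → ZMod p))).filter fun z =>
      z.2 0 ≠ 0 ∧ l * z.1 2 * z.2 1 ≠ z.1 1 * z.2 2 * m ∧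
      ¬ (ub * z.1 1 + ua * z.1 2 = 0 ∧ z.2 0 * l + ua * z.2 2 = 0 ∧ z.2 0 * m + ub * z.2 1 = 0)).card

open Classical in
/-- **CEX** (50 lines). The number of `(w, s)` which satisfy the three equations is at most `p ^ 3` (`(w 0, w 1, s 0)` determines
`(w, s)`). -/
def S_CEX : Prop := ∀ (p : ℕ) [Fact p.Prime] (l m ua ub : ZMod p), ua ≠ 0 → ub ≠ 0 →
    ((Finset.univ : Finset ((Fin 3 → ZMod p) × (Fin 3 → ZMod p))).filter fun z =>
      ub * z.1 1 + ua * z.1 2 = 0 ∧ z.2 0 * l + ua * z.2 2 = 0 ∧ z.2 0 * m + ub * z.2 1 = 0).card ≤ p ^ 3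

end Pool.Agent.V5helper57.WZ
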